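import Pool.Agent.H38.SE.TarB

/-! # MP_eaeaf5_lc, module BP: the generic real of `j` is new -/

open Ordinal Order Set
open scoped ZFSet

namespace SE

open SF

/-- definability of the set of conditions which decide a difference -/
theorem BP_tm (AF : T_AF) (BBa : T_BBa) : Tm ZFm (fun _ v => (v 0).sep fun q =>
    ∃ b ∈ sq, ∃ n ∈ dm b, ZFSet.pair (rst (v 2) q) b ∈ v 1 ∧ v 3 ∈ dm q ∧
      n ∈ dm (fst (app q (v 3))) ∧ app b n ≠ app (fst (app q (v 3))) n) := by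
  obtain ⟨-, -, f3, -⟩ := AF
  obtain ⟨b1, -⟩ := BBa
  have h : Dfb ZFm (fun (_ : V → Prop) v => ∃ b ∈ sq, ∃ n ∈ dm b,
      ZFSet.pair (rst (v 3) (v 0)) b ∈ v 2 ∧ v 4 ∈ dm (v 0) ∧
      n ∈ dm (fst (app (v 0) (v 4))) ∧ app b n ≠ app (fst (app (v 0) (v 4))) n) := by
    have h0 : Dfb ZFm (fun (_ : V → Prop) v =>
        ZFSet.pair (rst (v 5) (v 2)) (v 1) ∈ v 4 ∧ v 6 ∈ dm (v 2) ∧
        v 0 ∈ dm (fst (app (v 2) (v 6))) ∧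
        ¬ app (v 1) (v 0) = app (fst (app (v 2) (v 6))) (v 0)) := by
      exact Dfb.and (Dfb.mem (Tm.pair (Tm.at2 b1 (Tm.var 5) (Tm.var 2)) (Tm.var 1)) (Tm.var 4))
        (Dfb.and (Dfb.mem (Tm.var 6) (Tm.dm (Tm.var 2)))
          (Dfb.and (Dfb.mem (Tm.var 0) (Tm.dm (Tm.fst (Tm.app (Tm.var 2) (Tm.var 6)))))
            (Dfb.not (Dfb.eq (Tm.app (Tm.var 1) (Tm.var 0))
              (Tm.app (Tm.fst (Tm.app (Tm.var 2) (Tm.var 6))) (Tm.var 0))))))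
    exact Dfb.bex ktr_zfm f3 (Dfb.bex ktr_zfm (Tm.dm (Tm.var 0)) h0)
  exact Tm.sep h (Tm.var 0)

theorem nS_mem_succ (n : ℕ) : nS n ∈ nS (n + 1) := by
  rw [nS_succ]
  exact ZFSet.mem_insert _ _

theorem pf_BP (AF : T_AF) (AG : T_AG) (BA : T_BA) (BBa : T_BBa) (BC : T_BC) (BD : T_BD)
    (BH : T_BH) (BI : T_BI) (BJ : T_BJ) (BK : T_BK) (BL : T_BL) (BO : T_BO) : T_BP := by
  intro D hD ρ G s j hρ hc hG hs hsρ hTs hj hjs hW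
  have kN : ZFm D.N := hD.zfc.toZFCm.toZFm
  obtain ⟨-, a2, -, -, -, -, a7⟩ := BA
  obtain ⟨a71, a72, a73⟩ := a7 D.L ρ hc
  obtain ⟨-, -, -, c4, -, -, -, -, -, -, c11⟩ := BC
  obtain ⟨-, -, d3, -, d5, d6, -, -⟩ := BD
  obtain ⟨-, -, -, j4, j5⟩ := BJ D hD
  obtain ⟨-, j6⟩ := j5 ρ hρ hc
  obtain ⟨-, ⟨g1, g2, g3, g4, g5⟩, j7⟩ := j6 G hG
  obtain ⟨hlj, hsj, -, -, -⟩ := a72 j hj
  have hjN : D.N j := kN.trans ρ hρ j hj
  have hSjN : D.N (lS j) := (Tm.fst (Tm.snd (Tm.snd (Tm.var 0)))).1 D.N kN (fun _ => j)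
    (fun _ => hjN)
  have hs'N : D.N (s ∪ lS j) := (Tm.union (Tm.var 0) (Tm.var 1)).1 D.N kN
    (cons s fun _ => lS j) (In.cons (fun _ => hSjN) hs)
  have hTs' : Tr (s ∪ lS j) := by
    intro i hi x hx
    rcases ZFSet.mem_union.1 hi with h | h
    · exact ZFSet.mem_union.2 (Or.inl (hTs i h hx))
    · exact ZFSet.mem_union.2 (Or.inr (hlj.tr i h hx))
  have hs'ρ : s ∪ lS j ⊆ ρ := by
    intro i hi
    rcases ZFSet.mem_union.1 hi with h | h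
    · exact hsρ h
    · exact hsj h
  have hjs' : j ∉ s ∪ lS j := by
    intro h
    rcases ZFSet.mem_union.1 h with h | h
    · exact hjs h
    · exact (a2 D.L j hlj).2.2.2.2.2.1 h
  have hss' : s ⊆ s ∪ lS j := fun x hx => ZFSet.mem_union.2 (Or.inl hx)
  set s' : V := s ∪ lS j with hs'
  have hcs' : Cld D.L s' := a73 s' hs'ρ hTs'
  obtain ⟨-, l2⟩ := BL D hD ρ G hρ hc hG
  obtain ⟨m1, -, -, -, -, -, m7⟩ := l2 s' hs'N hs'ρ hTs'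
  obtain ⟨-, l3⟩ := BL D hD s' (gs G s') hs'N hcs' m1
  obtain ⟨-, -, n3, -⟩ := l3 s hs hss' hTs
  have hW' : D.W (gs G s') (cg G j) := by
    refine n3 _ ?_
    rw [m7 s hss']
    exact hW
  obtain ⟨hk1, hk2⟩ := BK D hD ρ G hρ hc hG
  obtain ⟨r1, r2, r3, r4, -⟩ := hk2 j hj
  obtain ⟨τ, hτ, hval⟩ := hW'
  obtain ⟨o1, -⟩ := BO D hD s' hs'N hcs'
  obtain ⟨Y, hY, hYn, hYv⟩ := o1 τ hτ
  have hev' : ev (gs G s') Y = cg G j := by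
    rw [hval]
    exact (hYv (gs G s') m1).1 (by rw [← hval]; exact r1)
  obtain ⟨-, -, -, k4, -, k6⟩ := hk1 s' Y hs'N hs'ρ hTs' hY hYn
  have hev : ev G Y = cg G j := by
    rw [← k6 s' (fun _ h => h), hev']
  -- the dense set
  have hX : D.N ((D.P ρ).sep fun q => ∃ b ∈ sq, ∃ n ∈ dm b, ZFSet.pair (rst s' q) b ∈ Y ∧
      j ∈ dm q ∧ n ∈ dm (fst (app q j)) ∧ app b n ≠ app (fst (app q j)) n) :=
    (BP_tm AF BBa).1 D.N kN (cons (D.P ρ) (cons Y (cons s' fun _ => j)))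
      (In.cons (In.cons (In.cons (fun _ => hjN) hs'N) hY) (j4 ρ hρ).1)
  have hdense : ∀ q ∈ D.P ρ, Le q ∅ → ∃ r ∈ ((D.P ρ).sep fun q => ∃ b ∈ sq, ∃ n ∈ dm b,
      ZFSet.pair (rst s' q) b ∈ Y ∧ j ∈ dm q ∧ n ∈ dm (fst (app q j)) ∧
      app b n ≠ app (fst (app q j)) n), r ∈ D.P ρ ∧ Le r q := by
    -- first with `j` in the domain
    have main : ∀ p ∈ D.P ρ, j ∈ dm p → ∃ r ∈ ((D.P ρ).sep fun q => ∃ b ∈ sq, ∃ n ∈ dm b,
        ZFSet.pair (rst s' q) b ∈ Y ∧ j ∈ dm q ∧ n ∈ dm (fst (app q j)) ∧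
        app b n ≠ app (fst (app q j)) n), r ∈ D.P ρ ∧ Le r p := by
      intro p hp hjp
      have hco := ((c4 D.L ρ p).1 hp).2.2 j hjp
      obtain ⟨n, hn⟩ := (AF.1 _).1 hco.s
      have hdn : dm (fst (app p j)) = nS n := (AF.2.2.2.2.1 n _ hn).2.2.1
      obtain ⟨i1, i2, -⟩ := BI D.L ρ hc
      obtain ⟨q1, hq1, hle1, ⟨b, hb, hbd, hbY⟩, hco1⟩ := i1 s' Y p (n + 1) hs'ρ hTs' hYn hp
      obtain ⟨hj1, hj2⟩ := hco1 j hjs'
      have hjq1 : j ∈ dm q1 := hj1.2 hjp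
      obtain ⟨q2, hq2, hle2, hd2, hne, -⟩ := i2 q1 j (app b (nS n)) n hq1 hjq1
        (by rw [hj2]; exact hdn)
      have hff1 := ((c4 D.L ρ q1).1 hq1).1
      have hff2 := ((c4 D.L ρ q2).1 hq2).1
      have hr2 := (d3 D.L ρ s' q2 hq2 fun i hi _ => hTs' i hi).1
      have hY2 : ZFSet.pair (rst s' q2) b ∈ Y :=
        hYn.mono _ b hbY _ hr2 (d6 s' q1 q2 hff1 hff2 hle2)
      have hjq2 : j ∈ dm q2 := (hle2 j hjq1).1
      refine ⟨q2, ZFSet.mem_sep.2 ⟨hq2, b, hb, nS n, ?_, hY2, hjq2, ?_, fun h => hne h.symm⟩,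
        hq2, ?_⟩
      · rw [hbd]; exact nS_mem_succ n
      · rw [hd2]; exact nS_mem_succ n
      · exact d5 D.L ρ p q1 q2 hp hq1 hq2 hle2 hle1
    intro p hp _
    by_cases hjp : j ∈ dm p
    · exact main p hp hjp
    · obtain ⟨h1, h2⟩ := BH.1 D.L ρ p j hc hp hj hjp
      have hff := ((c4 D.L ρ p).1 hp).1
      have hjd : j ∈ dm (upd p j (ZFSet.pair ∅ ∅)) := by
        rw [(c11 p j (ZFSet.pair ∅ ∅) hff).2.1]
        exact ZFSet.mem_insert _ _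
      obtain ⟨r, hr, hrP, hle⟩ := main _ h1 hjd
      exact ⟨r, hr, hrP, d5 D.L ρ p _ r hp h1 hrP hle h2⟩
  obtain ⟨r, hrG, hrX, -⟩ := j7 _ ∅ hX g2 hdense
  obtain ⟨-, b, hb, n, hn, hbY, hjr, hnr, hne⟩ := ZFSet.mem_sep.1 hrX
  have hb1 : b ⊆ cg G j := by
    rw [← hev]
    exact k4 r hrG b hbY
  have hb2 : fst (app r j) ⊆ cg G j := (r4 r hrG hjr).1
  have hsv : Svl (cg G j) := (AG.1 _ r1).1
  apply hne
  obtain ⟨y, hy⟩ := mem_dm.1 hn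
  obtain ⟨z, hz⟩ := mem_dm.1 hnr
  have e1 : app b n = y := app_eq (fun a x x' h h' => hsv a x x' (hb1 h) (hb1 h')) hy
  have e2 : app (fst (app r j)) n = z :=
    app_eq (fun a x x' h h' => hsv a x x' (hb2 h) (hb2 h')) hz
  rw [e1, e2]
  exact hsv n y z (hb1 hy) (hb2 hz)

end SE
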