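import Pool.Agent.H38.SE.TarB
import Pool.Agent.H1.SF.LRI

/-! # MP_eaeaf5_lc, module BR: the set `H` -/

open Ordinal Order Set
open scoped ZFSet

namespace SE

open SF

theorem pf_BR (AA : T_AA) (AF : T_AF) (BBa : T_BBa) : T_BR := by
  intro D hD
  have kN : ZFm D.N := hD.zfc.toZFCm.toZFm
  have kH : ZFm (· ∈ D.H) := hD.zfH
  obtain ⟨l1, l2⟩ := pf_LRI D.H D.N kN kH hD.hN hD.reg
  have htr : ∀ x ∈ D.H, ∀ y ∈ x, y ∈ D.H := kH.trans
  have hHN : ∀ x ∈ D.H, D.N x := fun x hx => kN.trans _ hD.hN x hx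
  have hsub : ∀ x y, D.N x → y ∈ D.H → x ⊆ y → x ∈ D.H := fun x y hx hy h => l1 y hy x hx h
  have hpr : ∀ x ∈ D.H, ∀ y ∈ D.H, ZFSet.pair x y ∈ D.H := fun x hx y hy => kH.mpair hx hy
  have hrg : ∀ f x, D.N f → Svl f → dm f = x → x ∈ D.H → rg f ⊆ D.H →
      rg f ∈ D.H ∧ f ∩ ZFSet.prod x (rg f) ∈ D.H := by
    intro f x hf hs hd hx hr
    have hNg : D.N (f ∩ ZFSet.prod x (rg f)) := by
      have h1 := (Tm.inter (Tm.var 0) (Tm.prod (Tm.var 1) (Tm.rg (Tm.var 0)))).1 D.N kN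
        (cons f fun _ => x) (In.cons (fun _ => hHN x hx) hf)
      exact h1
    have hmem : ∀ u y, ZFSet.pair u y ∈ f ∩ ZFSet.prod x (rg f) ↔ ZFSet.pair u y ∈ f := by
      intro u y
      rw [ZFSet.mem_inter, ZFSet.pair_mem_prod]
      refine ⟨fun h => h.1, fun h => ⟨h, ?_, mem_rg.2 ⟨u, h⟩⟩⟩
      rw [← hd]
      exact mem_dm.2 ⟨y, h⟩
    have hfun : ZFSet.IsFunc x D.H (f ∩ ZFSet.prod x (rg f)) := by
      constructor
      · intro z hz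
        obtain ⟨u, hu, y, hy, rfl⟩ := ZFSet.mem_prod.1 (ZFSet.mem_inter.1 hz).2
        exact ZFSet.pair_mem_prod.2 ⟨hu, hr hy⟩
      · intro u hu
        rw [← hd] at hu
        obtain ⟨y, hy⟩ := mem_dm.1 hu
        refine ⟨y, (hmem u y).2 hy, fun y' hy' => ?_⟩
        exact hs u y' y ((hmem u y').1 hy') hy
    refine ⟨?_, l2 x hx _ hNg hfun⟩
    have h2 := hD.reg x hx _ hNg hfun
    have e : rnF D.H x (f ∩ ZFSet.prod x (rg f)) = rg f := by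
      ext y
      unfold rnF
      rw [ZFSet.mem_sep, mem_rg]
      constructor
      · rintro ⟨-, u, hu, h⟩
        exact ⟨u, (hmem u y).1 h⟩
      · rintro ⟨u, hu⟩
        refine ⟨hr (mem_rg.2 ⟨u, hu⟩), u, ?_, (hmem u y).2 hu⟩
        rw [← hd]
        exact mem_dm.2 ⟨y, hu⟩
    rwa [e] at h2
  have hom : om ∈ D.H := kH.inf
  have hct : ∀ x, Ctbl D.N x → x ⊆ D.H → x ∈ D.H := by
    intro x hx hxH
    rcases hx with rfl | ⟨f, hf, hfx, hon⟩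
    · exact kH.mempty
    · have hd : dm f = om := by
        ext u
        rw [mem_dm]
        constructor
        · rintro ⟨y, hy⟩
          exact (ZFSet.pair_mem_prod.1 (hfx.1 hy)).1
        · intro hu
          obtain ⟨y, hy, -⟩ := hfx.2 u hu
          exact ⟨y, hy⟩
      have hr : rg f = x := by
        ext y
        rw [mem_rg]
        constructor
        · rintro ⟨u, hu⟩
          exact (ZFSet.pair_mem_prod.1 (hfx.1 hu)).2
        · intro hy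
          obtain ⟨u, -, hu⟩ := hon y hy
          exact ⟨u, hu⟩
      have h1 := (hrg f om hf (svl_of_isFunc hfx) hd hom (by rw [hr]; exact hxH)).1
      rwa [hr] at h1
  obtain ⟨-, -, b3, -, b5, -, -, -, -, -, -, -, b13, b14, -⟩ := BBa
  obtain ⟨-, -, -, -, -, -, -, a8, -⟩ := AA
  obtain ⟨-, -, f3, -⟩ := AF
  have hsq : sq ∈ D.H := f3.1 (· ∈ D.H) kH (fun _ => om) (fun _ => hom)
  have hhf : hf ∈ D.H := a8.1 (· ∈ D.H) kH (fun _ => om) (fun _ => hom)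
  have hP : ∀ ρ ∈ D.H, D.P ρ ∈ D.H := fun ρ hρ =>
    b13.1 (· ∈ D.H) kH (cons D.L fun _ => ρ) (In.cons (fun _ => hρ) hD.lH)
  have hR : ∀ ρ ∈ D.H, D.R ρ ∈ D.H := fun ρ hρ =>
    b14.1 (· ∈ D.H) kH (cons D.L fun _ => ρ) (In.cons (fun _ => hρ) hD.lH)
  have hprod : ∀ x ∈ D.H, ∀ y ∈ D.H, ZFSet.prod x y ∈ D.H := fun x hx y hy =>
    (Tm.prod (Tm.var 0) (Tm.var 1)).1 (· ∈ D.H) kH (cons x fun _ => y) (In.cons (fun _ => hy) hx)
  refine ⟨hsub, hrg, fun x hx hxH => ⟨hct x hx hxH, kH.union x (hct x hx hxH)⟩, ?_, ?_, ?_,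
    hsq, hhf, hom, ?_⟩
  · intro x hx y hy
    exact ⟨hpr x hx y hy,
      (Tm.union (Tm.var 0) (Tm.var 1)).1 (· ∈ D.H) kH (cons x fun _ => y)
        (In.cons (fun _ => hy) hx),
      (Tm.ins (Tm.var 0) (Tm.var 1)).1 (· ∈ D.H) kH (cons x fun _ => y)
        (In.cons (fun _ => hy) hx)⟩
  · intro ρ hρ
    refine ⟨hP ρ hρ, hR ρ hρ, fun p hp => htr _ (hP ρ hρ) p hp, fun i hi => ?_, fun Y hY hn => ?_⟩
    · have hi' : i ∈ D.H := htr ρ hρ i hi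
      exact b5.1 (· ∈ D.H) kH (fun _ => i) (fun _ => hi')
    · refine hsub Y (ZFSet.prod (D.P ρ) sq) hY (hprod _ (hP ρ hρ) _ hsq) fun z hz => ?_
      obtain ⟨q, hq, b, hb, rfl⟩ := hn.sub z hz
      exact ZFSet.pair_mem_prod.2 ⟨hq, hb⟩
  · intro e g s Y Z A B he hg hs hY hZ hA hB
    exact hpr _ he _ (hpr _ hg _ (hpr _ hs _ (hpr _ hY _ (hpr _ hZ _ (hpr _ hA _ hB)))))
  · intro n
    exact (Tm.nS n).1 (· ∈ D.H) kH (fun _ => om) (fun _ => hom)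

end SE
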