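import Pool.Agent.H38.SE.TarC

/-! # MP_eaeaf5_lc, module CR: the relation `Rz` is definable -/

open Ordinal Order Set
open scoped ZFSet

namespace SE

open SF

/-- the quantifier over all sets in the field `fi` -/
theorem CR_fi : Dfb ZFm (fun _ v => ∀ i ∈ dm (v 4), ∀ l, l ∈ snd (app (v 10) i) ↔
    l ∈ fst (snd (app (v 4) i)) ∨ ∃ j ∈ snd (snd (app (v 4) i)), l = app (v 11) j) := by
  -- `l = v 0`, `i = v 1`
  have h0 : Dfb ZFm (fun (_ : V → Prop) v => v 0 ∈ snd (app (v 12) (v 1)) ↔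
      v 0 ∈ fst (snd (app (v 6) (v 1))) ∨
        ∃ j ∈ snd (snd (app (v 6) (v 1))), v 0 = app (v 13) j) := by
    have h1 : Dfb ZFm (fun (_ : V → Prop) v => v 1 = app (v 14) (v 0)) :=
      Dfb.eq (Tm.var 1) (Tm.app (Tm.var 14) (Tm.var 0))
    exact Dfb.iff (Dfb.mem (Tm.var 0) (Tm.snd (Tm.app (Tm.var 12) (Tm.var 1))))
      (Dfb.or (Dfb.mem (Tm.var 0) (Tm.fst (Tm.snd (Tm.app (Tm.var 6) (Tm.var 1)))))
        (Dfb.bex ktr_zfm (Tm.snd (Tm.snd (Tm.app (Tm.var 6) (Tm.var 1)))) h1))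
  have h2 : Dfb ZFm (fun (_ : V → Prop) v => ∀ l, l ∈ snd (app (v 11) (v 0)) ↔
      l ∈ fst (snd (app (v 5) (v 0))) ∨
        ∃ j ∈ snd (snd (app (v 5) (v 0))), l = app (v 12) j) := by
    refine Dfb.congr (Dfb.all h0) fun M k v hv => ?_
    constructor
    · intro h l
      have t1 : M (snd (app (v 11) (v 0))) :=
        (Tm.snd (Tm.app (Tm.var 11) (Tm.var 0))).1 M k v hv
      have t2 : M (fst (snd (app (v 5) (v 0)))) :=
        (Tm.fst (Tm.snd (Tm.app (Tm.var 5) (Tm.var 0)))).1 M k v hv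
      have t3 : M (snd (snd (app (v 5) (v 0)))) :=
        (Tm.snd (Tm.snd (Tm.app (Tm.var 5) (Tm.var 0)))).1 M k v hv
      constructor
      · intro hl
        exact (h l (k.trans _ t1 l hl)).1 hl
      · intro hl
        refine (h l ?_).2 hl
        rcases hl with hl | ⟨j, hj, rfl⟩
        · exact k.trans _ t2 l hl
        · exact (Tm.app (Tm.var 13) (Tm.var 0)).1 M k (cons j v)
            (In.cons hv (k.trans _ t3 j hj))
    · intro h l _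
      exact h l
  exact Dfb.ball ktr_zfm (Tm.dm (Tm.var 4)) h2

theorem pf_CR (BBa : T_BBa) : T_CR := by
  obtain ⟨-, -, -, -, -, -, -, -, -, -, -, b12, b13, -⟩ := BBa
  have f1 : Dfb ZFm (fun (_ : V → Prop) v => v 10 ∈ Pos (v 0) (v 1)) :=
    Dfb.mem (Tm.var 10) (Tm.at2 b13 (Tm.var 0) (Tm.var 1))
  have f2 : Dfb ZFm (fun (_ : V → Prop) v => Le (v 10) (v 2)) :=
    Dfb.at2 b12 (Tm.var 10) (Tm.var 2)
  have f3 : Dfb ZFm (fun (_ : V → Prop) v => dm (v 4) ⊆ dm (v 10)) :=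
    Dfb.subset (Tm.dm (Tm.var 4)) (Tm.dm (Tm.var 10))
  have f4 : Dfb ZFm (fun (_ : V → Prop) v => ∀ i ∈ dm (v 10), i ∈ v 9 → i ∈ dm (v 4)) :=
    Dfb.ball ktr_zfm (Tm.dm (Tm.var 10)) (Dfb.imp (Dfb.mem (Tm.var 0) (Tm.var 10))
      (Dfb.mem (Tm.var 0) (Tm.dm (Tm.var 5))))
  have f5 : Dfb ZFm (fun (_ : V → Prop) v => ∀ i ∈ dm (v 4),
      fst (app (v 10) i) = fst (app (v 4) i)) :=
    Dfb.ball ktr_zfm (Tm.dm (Tm.var 4)) (Dfb.eq (Tm.fst (Tm.app (Tm.var 11) (Tm.var 0)))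
      (Tm.fst (Tm.app (Tm.var 5) (Tm.var 0))))
  have f7 : Dfb ZFm (fun (_ : V → Prop) v => ZFSet.IsFunc (v 5) (v 0) (v 11)) :=
    Dfb.isFunc (Tm.var 5) (Tm.var 0) (Tm.var 11)
  have f8 : Dfb ZFm (fun (_ : V → Prop) v => ∀ i ∈ v 5, ∀ j ∈ v 5,
      app (v 11) i = app (v 11) j → i = j) := by
    have h1 : Dfb ZFm (fun (_ : V → Prop) v =>
        app (v 13) (v 1) = app (v 13) (v 0) → v 1 = v 0) :=
      Dfb.imp (Dfb.eq (Tm.app (Tm.var 13) (Tm.var 1)) (Tm.app (Tm.var 13) (Tm.var 0)))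
        (Dfb.eq (Tm.var 1) (Tm.var 0))
    exact Dfb.ball ktr_zfm (Tm.var 5) (Dfb.ball ktr_zfm (Tm.var 6) h1)
  have f9 : Dfb ZFm (fun (_ : V → Prop) v => ∀ j ∈ v 5, app (v 8) j ⊆ app (v 11) j ∧
      ¬ app (v 11) j ∈ v 9) := by
    have h1 : Dfb ZFm (fun (_ : V → Prop) v => app (v 9) (v 0) ⊆ app (v 12) (v 0) ∧
        ¬ app (v 12) (v 0) ∈ v 10) :=
      Dfb.and (Dfb.subset (Tm.app (Tm.var 9) (Tm.var 0)) (Tm.app (Tm.var 12) (Tm.var 0)))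
        (Dfb.not (Dfb.mem (Tm.app (Tm.var 12) (Tm.var 0)) (Tm.var 10)))
    exact Dfb.ball ktr_zfm (Tm.var 5) h1
  have f10 : Dfb ZFm (fun (_ : V → Prop) v =>
      ZFSet.pair (v 10) (ZFSet.pair (app (v 11) (v 6)) (v 7)) ∈ v 3) :=
    Dfb.mem (Tm.pair (Tm.var 10) (Tm.pair (Tm.app (Tm.var 11) (Tm.var 6)) (Tm.var 7)))
      (Tm.var 3)
  refine Dfb.congr (f1.and (f2.and (f3.and (f4.and (f5.and (CR_fi.and
    (f7.and (f8.and (f9.and f10))))))))) fun M k v hv => ?_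
  constructor
  · rintro ⟨h1, h2, h3, h4, h5, h6, h7, h8, h9, h10⟩
    exact ⟨h1, h2, h3, h4, h5, h6, h7, h8, h9, h10⟩
  · intro h
    exact ⟨h.mp, h.lq, h.da, h.fr, h.si, h.fi, h.fd, h.inj, h.ex, h.mb⟩

end SE
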