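import Pool.Agent.H9.SE.TarK
import Pool.Agent.H3.CA.DF

/-! # MP_eaeaf5_lc, module KY: countable elementary submodels and their collapses -/

set_option linter.unusedVariables false

open Ordinal Order Set
open scoped ZFSet

namespace SE

open SF

namespace KY

/-- finite sequences of elements of `hf` are hereditarily finite -/
theorem lc_mem_hf (AA : T_AA) {l : List V} (hl : ∀ p ∈ l, p ∈ hf) : lc l ∈ hf := by
  obtain ⟨-, hnS, -, hpr, -⟩ := AA
  induction l with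
  | nil =>
    have h := hnS 0
    rwa [nS_zero] at h
  | cons a l ih => exact hpr _ (hl a (by simp)) _ (ih fun p hp => hl p (by simp [hp]))

/-- the codes of formulas are hereditarily finite -/
theorem cd_mem_hf (AA : T_AA) (φ : Fml) : cd φ ∈ hf := by
  obtain ⟨-, hnS, -, hpr, -⟩ := AA
  induction φ with
  | mem i j => exact hpr _ (hnS _) _ (hpr _ (hnS _) _ (hnS _))
  | eq i j => exact hpr _ (hnS _) _ (hpr _ (hnS _) _ (hnS _))
  | prd i => exact hpr _ (hnS _) _ (hnS _)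
  | neg φ ih => exact hpr _ (hnS _) _ ih
  | and φ ψ ih1 ih2 => exact hpr _ (hnS _) _ (hpr _ ih1 _ ih2)
  | ex φ ih => exact hpr _ (hnS _) _ ih

/-- the set of the finite sequences of elements of a countable set is countable -/
theorem ctbl_Lw (AA : T_AA) (AC : T_AC) {M : V → Prop} (k : ZFm M) {y : V} (hy : Ctbl M y) :
    Ctbl M (Lw y) := by
  obtain ⟨c1, c2, -, -, -, c6⟩ := AC M k
  have hhf : Ctbl M hf := AA.2.2.2.2.2.2.2.2 M k
  have hom : M om := k.inf
  rcases hy with rfl | ⟨f, hf', hof⟩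
  · have e : Lw (∅ : V) ⊆ hf := by
      intro q hq
      obtain ⟨l, hl, rfl⟩ := mem_Lw.1 hq
      exact lc_mem_hf AA fun p hp => absurd (hl p hp) (ZFSet.notMem_empty _)
    have hM : M (Lw (∅ : V)) := (Tm.Lw Tm.empty).1 M k (fun _ => om) fun _ => hom
    exact c2 _ _ hM hhf e
  · have e : Lw om ⊆ hf := by
      intro q hq
      obtain ⟨l, hl, rfl⟩ := mem_Lw.1 hq
      exact lc_mem_hf AA fun p hp => AA.2.2.1 (hl p hp)
    have hM : M (Lw om) := (Tm.Lw (Tm.var 0)).1 M k (fun _ => om) fun _ => hom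
    have h1 : Ctbl M (Lw om) := c2 _ _ hM hhf e
    have hR : M (resS (Lw om) fun s => mpS f s) := by
      have h2 := (Tm.resS (f := fun _ v => Lw (v 0)) (g := fun _ v => mpS (v 2) (v 0))
        (Tm.Lw (Tm.var 0)) (Tm.mpS (Tm.var 2) (Tm.var 0))).1 M k (cons om fun _ => f)
          (In.cons (fun _ => hf') hom)
      exact h2
    have h3 := c6 _ _ hR (svl_resS _ _) h1 (by rw [dm_resS])
    have e2 : rg (resS (Lw om) fun s => mpS f s) = Lw y := by
      ext q
      rw [mem_rg]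
      constructor
      · rintro ⟨s, hs⟩
        obtain ⟨hs1, rfl⟩ := pair_mem_resS.1 hs
        obtain ⟨l, hl, rfl⟩ := mem_Lw.1 hs1
        rw [mpS_lc]
        refine mem_Lw.2 ⟨_, ?_, rfl⟩
        intro p hp
        obtain ⟨q, hq, rfl⟩ := List.mem_map.1 hp
        exact app_mem hof.1 (hl q hq)
      · intro hq
        obtain ⟨l, hl, rfl⟩ := mem_Lw.1 hq
        have key : ∀ l : List V, (∀ p ∈ l, p ∈ y) → ∃ l' : List V, (∀ p ∈ l', p ∈ om) ∧
            l'.map (app f) = l := by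
          intro l
          induction l with
          | nil => exact fun _ => ⟨[], by simp, rfl⟩
          | cons a l ih =>
            intro h
            obtain ⟨l', h1, h2⟩ := ih fun p hp => h p (by simp [hp])
            obtain ⟨c, hc, hp⟩ := hof.2 a (h a (by simp))
            refine ⟨c :: l', ?_, by simp [app_eq (svl_of_isFunc hof.1) hp, h2]⟩
            intro p hp
            rcases List.mem_cons.1 hp with rfl | hp
            · exact hc
            · exact h1 p hp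
        obtain ⟨l', h1, h2⟩ := key l hl
        exact ⟨lc l', pair_mem_resS.2 ⟨mem_Lw.2 ⟨l', h1, rfl⟩, by rw [mpS_lc, h2]⟩⟩
    rwa [e2] at h3

/-- the definable closure of a countable set is countable -/
theorem ctbl_Dcl (AA : T_AA) (AC : T_AC) {M : V → Prop} (k : ZFm M) {N Y : V} (hN : M N)
    (hY : Ctbl M Y) : Ctbl M (CAA.Dcl N Y) := by
  obtain ⟨c1, c2, c3, -, -, c6⟩ := AC M k
  have hhf : Ctbl M hf := AA.2.2.2.2.2.2.2.2 M k
  rw [← CAA.DF.rg_RD]
  have hMY : M Y := c1 _ hY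
  have hv : In M (cons N (cons Y fun _ => N)) := In.cons (In.cons (fun _ => hN) hMY) hN
  have hR : M (CAA.DF.RD N Y) := CAA.DF.tm_RD.1 M k _ hv
  have hYN : M (Y ∩ N) := (Tm.inter (Tm.var 1) (Tm.var 0)).1 M k _ hv
  have hCD : M CD := Tm.CD.1 M k _ hv
  have h1 : Ctbl M (ZFSet.prod CD (Lw (Y ∩ N))) := by
    refine c3 _ _ (c2 _ _ hCD hhf ?_) (ctbl_Lw AA AC k
      (c2 _ _ hYN hY fun p hp => (ZFSet.mem_inter.1 hp).1))
    intro c hc
    obtain ⟨φ, rfl⟩ := mem_CD.1 hc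
    exact cd_mem_hf AA φ
  refine c6 _ _ hR (CAA.DF.svl_RD N Y) h1 ?_
  intro q hq
  obtain ⟨z, hz⟩ := mem_dm.1 hq
  unfold CAA.DF.RD at hz
  rw [ZFSet.mem_sep, ZFSet.pair_mem_prod] at hz
  exact hz.1.1

end KY

theorem t_ky (DB : CAA.T_DB) (DC : CAA.T_DC) (DJ : CAA.T_DJ) (DK : CAA.T_DK) (DL : CAA.T_DL)
    (AA : T_AA) (AC : T_AC) : T_KY := by
  intro W kW x κ hWN kN hxN hx φ hφ
  have k : ZFm W := kW.toZFm
  obtain ⟨c1, c2, c3, c4, -, c6⟩ := AC W k
  have hhf : Ctbl W hf := AA.2.2.2.2.2.2.2.2 W k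
  have hWhf : W hf := c1 _ hhf
  have hWx : W x := k.trans _ hWN x hxN
  have hNhf : hf ∈ LA x κ := AA.2.2.2.2.2.2.2.1.1 _ kN (fun _ => x) fun _ => hxN
  have hhfN : hf ⊆ LA x κ := fun u hu => kN.trans _ hNhf u hu
  have hxhf : x ⊆ hf := by
    intro z hz
    obtain ⟨n, hn, a, ha, rfl⟩ := ZFSet.mem_prod.1 (hx.1 hz)
    exact AA.2.2.2.1 _ (AA.2.2.1 hn) _ ha
  -- the parameters
  have hYN : hf ∪ {x} ⊆ LA x κ := by
    intro u hu
    rcases ZFSet.mem_union.1 hu with hu | hu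
    · exact hhfN hu
    · rw [ZFSet.mem_singleton.1 hu]
      exact hxN
  have hxY : x ∈ hf ∪ {x} := ZFSet.mem_union.2 (Or.inr (ZFSet.mem_singleton.2 rfl))
  have hYtr : (hf ∪ {x} : V).IsTransitive := by
    intro u hu w hw
    rcases ZFSet.mem_union.1 hu with hu | hu
    · exact ZFSet.mem_union.2 (Or.inl (AA.1 u hu hw))
    · rw [ZFSet.mem_singleton.1 hu] at hw
      exact ZFSet.mem_union.2 (Or.inl (hxhf hw))
  have hsing : Ctbl W ({x} : V) := by
    have hR : W (resS ({∅} : V) fun _ => x) := by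
      have h2 := (Tm.resS (f := fun _ _ => ({∅} : V)) (g := fun _ v => v 1)
        (Tm.sing Tm.empty) (Tm.var 1)).1 W k (fun _ => x) (fun _ => hWx)
      exact h2
    have h0 : (∅ : V) ∈ hf := by
      have h := AA.2.1 0
      rwa [nS_zero] at h
    have h3 := c6 _ _ hR (svl_resS _ _) hhf (by
      rw [dm_resS]
      intro u hu
      rw [ZFSet.mem_singleton.1 hu]
      exact h0)
    have e2 : rg (resS ({∅} : V) fun _ => x) = {x} := by
      ext q
      rw [mem_rg, ZFSet.mem_singleton]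
      constructor
      · rintro ⟨s, hs⟩
        exact (pair_mem_resS.1 hs).2
      · rintro rfl
        exact ⟨∅, pair_mem_resS.2 ⟨ZFSet.mem_singleton.2 rfl, rfl⟩⟩
    rwa [e2] at h3
  have hYc : Ctbl W (hf ∪ {x}) := c4 _ _ hhf hsing
  -- the hull
  obtain ⟨hEl, hne, hYX, -⟩ := DC (LA x κ) x κ kN hxN rfl _ hYN (Or.inr hxY)
  have hXc : Ctbl W (CAA.Dcl (LA x κ) (hf ∪ {x})) := KY.ctbl_Dcl AA AC k hWN hYc
  have hWX : W (CAA.Dcl (LA x κ) (hf ∪ {x})) := c1 _ hXc
  set X : V := CAA.Dcl (LA x κ) (hf ∪ {x}) with hX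
  have hNtr : (LA x κ : V).IsTransitive := fun u hu w hw => kN.trans u hu w hw
  obtain ⟨f, h1, h2, h3, h4, h5, h6⟩ := DK (LA x κ) X hNtr ⟨x, hxN⟩ hEl
  obtain ⟨e1, e2⟩ := h6 _ hYtr hYX x hxY
  have hxT : x ∈ imS X fun x => CAA.clp X x := mem_imS.2 ⟨x, hYX hxY, e1⟩
  have hWT : W (imS X fun x => CAA.clp X x) := by
    have h := (Tm.image (f := fun _ v => v 0) (g := fun _ v => CAA.clp (v 1) (v 0)) (Tm.var 0)
      (Tm.at2 (F := fun _ a b => CAA.clp a b) DJ.2 (Tm.var 1) (Tm.var 0))).1 W k (fun _ => X)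
        fun _ => hWX
    exact h
  have hR : W (resS X fun x => CAA.clp X x) := by
    have h := (Tm.resS (f := fun _ v => v 0) (g := fun _ v => CAA.clp (v 1) (v 0)) (Tm.var 0)
      (Tm.at2 (F := fun _ a b => CAA.clp a b) DJ.2 (Tm.var 1) (Tm.var 0))).1 W k (fun _ => X)
        fun _ => hWX
    exact h
  have hTc : Ctbl W (imS X fun x => CAA.clp X x) := by
    have h := c6 _ _ hR (svl_resS _ _) hXc (by rw [dm_resS])
    have e : rg (resS X fun x => CAA.clp X x) = imS X fun x => CAA.clp X x := by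
      ext q
      rw [mem_rg, mem_imS]
      constructor
      · rintro ⟨s, hs⟩
        obtain ⟨hs1, hs2⟩ := pair_mem_resS.1 hs
        exact ⟨s, hs1, hs2.symm⟩
      · rintro ⟨s, hs1, hs2⟩
        exact ⟨s, pair_mem_resS.2 ⟨hs1, hs2.symm⟩⟩
    rwa [e] at h
  obtain ⟨τ', -, hTZ, -⟩ := DL _ (LA x κ) f x κ h1 h2 ⟨x, hxT⟩ kN hxT (by rw [e2])
  refine ⟨_, hWT, hTc, hTZ, hxT, ?_⟩
  rw [h1.el φ (fun _ => x) fun _ => hxT, e2]
  exact hφ

end SE
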